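import Pool.Agent.Lib.SE.C.Spec
import Pool.Agent.Lib.SE.Big.Dim
import Pool.Agent.Lib.SE.Big.Pj
import Pool.Agent.Lib.SE.Big.Tw
import Pool.Agent.Lib.SE.Big.Bas

/-!
# PROJECT SE-C, module Cp: kinds are compatible (helper92)
-/

set_option autoImplicit false

open Module

noncomputable section

namespace SEC

open HC HC.E HC.SE SEB SEQ SE

namespace Cp_aux

theorem symm {T T' : AV} {m m' : ℕ} {D : Cyc T m} {D' : Cyc T' m'} {r : ℕ}
    (h : Cptg D D' r r) : Cptg D' D r r := by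
  rcases h with (h | h | h | h | h) | h
  · exact absurd rfl h
  · obtain ⟨ρ, h1, h2⟩ := h
    exact Or.inl (Or.inr (Or.inr (Or.inl ⟨ρ, by rwa [mul_comm], h2⟩)))
  · obtain ⟨ρ, h1, h2⟩ := h
    exact Or.inl (Or.inr (Or.inl ⟨ρ, by rwa [mul_comm], h2⟩))
  · obtain ⟨rfl, h | h⟩ := h
    · exact Or.inl (Or.inr (Or.inr (Or.inr (Or.inl ⟨rfl, Or.inl fun u => (h u).symm⟩))))
    · refine Or.inl (Or.inr (Or.inr (Or.inr (Or.inl ⟨rfl, Or.inr fun u => ?_⟩))))
      have h1 := h (-u)
      rw [neg_neg] at h1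
      exact h1.symm
  · exact Or.inl (Or.inr (Or.inr (Or.inr (Or.inr ⟨h.1, h.2.symm.imp
      (fun h => ⟨h.2, h.1⟩) fun h => ⟨h.2, h.1⟩⟩))))
  · exact Or.inr fun s t he => h t s he.symm

theorem un3 : ∀ u s : (ZMod 3)ˣ, u = s ∨ u = -s := by decide

theorem un4 : ∀ u s : (ZMod 4)ˣ, u = s ∨ u = -s := by decide

theorem un {m : ℕ} (hm : m = 3 ∨ m = 4) (u s : (ZMod m)ˣ) : u = s ∨ u = -s := by
  rcases hm with rfl | rfl
  · exact un3 u s
  · exact un4 u s

/-- the fourth case -/
theorem four {T T' : AV} {m r : ℕ} (D : Cyc T m) (D' : Cyc T' m) (hm : m = 3 ∨ m = 4)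
    (hD : ∀ s, D.p s + D.p (-s) = r) (hD' : ∀ s, D'.p s + D'.p (-s) = r) {s t : (ZMod m)ˣ}
    (hs : D.p s = 1) (ht : D'.p t = 1) : Cptg D D' r r := by
  have h1 := hD s
  have h2 := hD' t
  refine Or.inl (Or.inr (Or.inr (Or.inr (Or.inl ⟨rfl, ?_⟩))))
  rcases un hm t s with rfl | rfl
  · refine Or.inl fun u => ?_
    change D.p u = D'.p u
    rcases un hm u t with rfl | rfl
    · rw [hs, ht]
    · omega
  · refine Or.inr fun u => ?_
    change D.p u = D'.p (-u)
    rcases un hm u s with rfl | rfl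
    · rw [hs, ht]
    · rw [neg_neg] at h2 ⊢
      omega

theorem odd5 (m' : ℕ) (ho : Odd m') (h5 : 5 ≤ m') : ∃ ρ : ℕ, ρ.Coprime (4 * m') ∧
    (ρ : ZMod 4) = 1 ∧ (ρ : ZMod m') ≠ 1 ∧ (ρ : ZMod m') ≠ -1 := by
  have hc2 : Nat.Coprime 2 m' := (Nat.coprime_two_left).2 ho
  have hc : Nat.Coprime 4 m' := by
    have : Nat.Coprime (2 ^ 2) m' := Nat.Coprime.pow_left 2 hc2
    simpa using this
  obtain ⟨ρ, h1, h2⟩ := Nat.chineseRemainder hc 1 2
  have e2 : (ρ : ZMod m') = ((2 : ℕ) : ZMod m') := (ZMod.natCast_eq_natCast_iff _ _ _).2 h2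
  refine ⟨ρ, ?_, ?_, ?_, ?_⟩
  · refine Nat.Coprime.mul_right ?_ ?_
    · have := h1.gcd_eq
      rw [Nat.Coprime, this]
      simp
    · have := h2.gcd_eq
      rw [Nat.Coprime, this]
      exact hc2
  · have := (ZMod.natCast_eq_natCast_iff ρ 1 4).2 h1
    simpa using this
  · intro h
    rw [e2] at h
    have h3 : ((1 : ℕ) : ZMod m') = 0 := by
      push_cast
      push_cast at h
      linear_combination h
    rw [ZMod.natCast_eq_zero_iff] at h3
    exact absurd (Nat.le_of_dvd (by norm_num) h3) (by omega)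
  · intro h
    rw [e2] at h
    have h3 : ((3 : ℕ) : ZMod m') = 0 := by
      push_cast
      push_cast at h
      linear_combination h
    rw [ZMod.natCast_eq_zero_iff] at h3
    exact absurd (Nat.le_of_dvd (by norm_num) h3) (by omega)

/-- first kind against second kind -/
theorem mixed (hR : S_Rho) {T T' : AV} {m m' r : ℕ} (D : Cyc T m) (D' : Cyc T' m')
    (hg : GFg D r) (hg' : GFg D' r) (h : (m = 3 ∨ m = 4) ∧ 3 ≤ r ∧ ∃ s, D.p s = 1)
    (ho : Odd m') (h3 : 3 ≤ m') : Cptg D D' r r := by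
  obtain ⟨hm, hr, s, hs⟩ := h
  have hD : ∀ s, D.p s + D.p (-s) = r := fun s =>
    (tDim tPj tTw (tBas tPj) T m r D hg.hm hg.dim s).2
  have hD' : ∀ s, D'.p s + D'.p (-s) = r := fun s =>
    (tDim tPj tTw (tBas tPj) T' m' r D' hg'.hm hg'.dim s).2
  by_cases hmm : m = m'
  · subst hmm
    by_cases ht : ∃ t, D'.p t = 1
    · obtain ⟨t, ht⟩ := ht
      exact four D D' hm hD hD' hs ht
    · push Not at ht
      refine Or.inr fun s' t he => ?_
      have h1 : D.p s' * D.p (-s') = r - 1 := by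
        have h2 := hD s
        rcases un hm s' s with rfl | rfl
        · rw [hs, one_mul]
          omega
        · rw [neg_neg, hs, mul_one]
          omega
      have h2 := ht t
      have h3 := ht (-t)
      have h4 := hD' t
      rw [h1] at he
      have h5 : (((D'.p t : ℤ)) - 1) * ((D'.p (-t) : ℤ) - 1) = 0 := by
        have h6 : ((r - 1 : ℕ) : ℤ) = (D'.p t : ℤ) * (D'.p (-t) : ℤ) := by
          rw [he]
          push_cast
          ring
        have h7 : ((r - 1 : ℕ) : ℤ) = (r : ℤ) - 1 := by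
          omega
        have h8 : (D'.p t : ℤ) + (D'.p (-t) : ℤ) = r := by exact_mod_cast h4
        rw [h7] at h6
        linear_combination -h6 - h8
      rcases mul_eq_zero.mp h5 with h6 | h6
      · exact h2 (by omega)
      · exact h3 (by omega)
  · rcases hm with rfl | rfl
    · rcases hR 3 m' (by decide) ho le_rfl h3 hmm with h | h
      · exact Or.inl (Or.inr (Or.inl h))
      · exact Or.inl (Or.inr (Or.inr (Or.inl h)))
    · by_cases h33 : m' = 3
      · exact Or.inl (Or.inr (Or.inr (Or.inr (Or.inr ⟨hr, Or.inr ⟨rfl, h33⟩⟩))))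
      · have h5 : 5 ≤ m' := by
          obtain ⟨k, hk⟩ := ho
          omega
        exact Or.inl (Or.inr (Or.inl (odd5 m' ho h5)))

end Cp_aux

theorem tCp : S_Cp := by
  intro hR T T' m m' r r' D D' hg hg' h h'
  by_cases hrr : r = r'
  · subst hrr
    have hD : ∀ s, D.p s + D.p (-s) = r := fun s =>
    (tDim tPj tTw (tBas tPj) T m r D hg.hm hg.dim s).2
    have hD' : ∀ s, D'.p s + D'.p (-s) = r := fun s =>
    (tDim tPj tTw (tBas tPj) T' m' r D' hg'.hm hg'.dim s).2
    rcases h with h | h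
    · rcases h' with h' | h'
      · obtain ⟨hm, hr, s, hs⟩ := h
        obtain ⟨hm', hr', t, ht⟩ := h'
        by_cases hmm : m = m'
        · subst hmm
          exact Cp_aux.four D D' hm hD hD' hs ht
        · refine Or.inl (Or.inr (Or.inr (Or.inr (Or.inr ⟨hr, ?_⟩))))
          omega
      · exact Cp_aux.mixed hR D D' hg hg' h h'.1 h'.2.1
    · rcases h' with h' | h'
      · exact Cp_aux.symm (Cp_aux.mixed hR D' D hg' hg h' h.1 h.2.1)
      · by_cases hmm : m = m'
        · subst hmm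
          refine Or.inl (Or.inr (Or.inr (Or.inr (Or.inl ⟨rfl, Or.inl fun u => ?_⟩))))
          change D.p u = D'.p u
          rw [h.2.2.2.2 u, h'.2.2.2.2 u]
        · rcases hR m m' h.1 h'.1 h.2.1 h'.2.1 hmm with h1 | h1
          · exact Or.inl (Or.inr (Or.inl h1))
          · exact Or.inl (Or.inr (Or.inr (Or.inl h1)))
  · exact Or.inl (Or.inl hrr)

end SEC
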