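import Pool.Agent.Lib.SE.C.Spec
import Pool.Agent.Lib.SE.Q.Gg
import Pool.Agent.Lib.SE.Big.Gf

/-!
# PROJECT SE-C, module Gg: the explicit class (helper50)
-/

set_option autoImplicit false

open Module

noncomputable section

namespace SEC

open HC HC.E HC.SE SEB SEQ SE

namespace Gg_aux

theorem gfg {T : AV} {m r : ℕ} {D : Cyc T m} (h : GF1 D r) : GFg D r := by
  obtain ⟨s, hs⟩ := h.one
  have hr := h.hr
  refine ⟨h.hm, h.hr, h.dim, ⟨s, by omega, by omega, ?_⟩, h.ap, h.hit⟩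
  by_cases h2 : r = 2
  · exact Or.inr h2
  · left
    omega

/-- New Jacobians. -/
theorem new (hP : S_Pr3) {G : AV} {m r : ℕ} {s : Fin (r + 1) → ℂ} (N : New G m s fun _ => 1)
    (ho : Odd m) (h3 : 3 ≤ m) (hr : 2 ≤ r) (hmr : ¬ m ∣ r + 1) (hs : Function.Injective s)
    (hc : r = 2 ∨ (m.Prime ∧ r + 1 < m ∧ EndQ G N.Z) ∨ s ∉ MMc m r) :
    IsCM G ∨ ∃ D : Cyc G m, GFg D r ∧ Kdc D r ∧ D.Z = N.Z := by
  have hcov : IsCov m s (fun _ => 1) := isCov_one' h3 hmr hs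
  obtain ⟨D, hD⟩ := tAvg G m (by omega) N.Z N.lat N.cyc
  have hsg : ∀ u : (ZMod m)ˣ, D.p u = sg m r (fun _ => 1) (u : ZMod m).val :=
    tPnew tSg mods.Bas G m r s (fun _ => 1) hcov N D hD
  obtain ⟨hap, hu⟩ := hP m r ho h3 hr hmr
  have hA : Aper D := tAp G m r D (fun _ => 1) h3 hsg hap
  have hK : Kdc D r := Or.inr ⟨ho, h3, hr, hmr, hsg⟩
  rcases hc with h2 | ⟨hp, hrp, hE⟩ | hM
  · subst h2
    have hd : finrank ℂ G.V = Nat.totient m := by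
      have := N.dim
      omega
    obtain ⟨u, hum, huc, h1, h4, -⟩ := hu
    have h5 := tSg m 2 s (fun _ => 1) hcov u hum huc
    obtain ⟨v, hv⟩ := exists_unit hum huc
    have hone : ∃ s, D.p s = 1 := ⟨v, by rw [hsg, hv]; omega⟩
    rcases good_two mods tA1 (tA2 tHm) tA3 tA4 D h3 hd hone hA with h | h
    · exact Or.inl h
    · exact Or.inr ⟨D, gfg h, hK, hD⟩
  · obtain ⟨-, u, hup, huc, hu1⟩ := tPr m r hp hr hrp
    obtain ⟨v, hv⟩ := exists_unit hup huc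
    have hone : ∃ s, D.p s = 1 := ⟨v, by rw [hsg, hv, hu1]⟩
    rw [← hD] at hE
    exact Or.inr ⟨D, gfg (good_end mods tIrrZ D h3 hr N.dim hone (endZ_of_endQ D hE) hA), hK, hD⟩
  · rw [MMc, if_pos ⟨ho, h3, hr, hmr⟩] at hM
    have hall : ∀ T : AV, IsCov m s (fun _ => 1) → ∀ (N : New T m s fun _ => 1)
        (E : T.V →ₗ[ℝ] T.V →ₗ[ℝ] ℝ) (hE : IsPol T N.Z E), Full (mkCyc N hE) := by
      by_contra h
      exact hM ⟨hs, h⟩
    obtain ⟨hE, hDE⟩ := cyc_eq N D hD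
    have hF := hall G hcov N D.ψ hE
    rw [hDE] at hF
    exact Or.inr ⟨D, gfg_of_full mods tPnew tSg tAp hcov N D hD hr hu hap hF, hK, hD⟩

end Gg_aux

open Gg_aux in
/-- Module Gg: the explicit class. -/
theorem tGg : S_Gg := by
  intro hP G hG
  rcases hG with ⟨m, Z, hPi, h3, hE⟩ | ⟨m, r, s, N, ho, h3, hr, hmr, hs, hc⟩
  · obtain ⟨D, h1, -, h4⟩ := SEQ.Gg_aux.pic hPi h3 hE
    have hm : m = 3 ∨ m = 4 := hPi.dim.imp And.left And.left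
    exact Or.inr ⟨m, finrank ℂ G.V, D, gfg h1, Or.inl ⟨hm, h3, h1.one⟩, Or.inl h4⟩
  · rcases new hP N ho h3 hr hmr hs hc with h | ⟨D, h1, h2, h4⟩
    · exact Or.inl h
    · exact Or.inr ⟨m, r, D, h1, h2, Or.inr ⟨s, N, h4.symm, isCov_one' h3 hmr hs⟩⟩

end SEC
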