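import Pool.Agent.Lib.SE.C.Spec
import Pool.Agent.Lib.SE.Big.Pj
import Pool.Agent.Lib.SE.Big.Tw
import Pool.Agent.Lib.SE.Big.Bas
import Pool.Agent.Lib.SE.Big.Dim

/-!
# PROJECT SE-C, module P2: a character with `2 ≤ p s`
-/

set_option autoImplicit false

open Module

noncomputable section

namespace SEC

open HC HC.E HC.SE SEB SEQ SE

namespace P2_aux

/-- The signature of the character `1` in rank `2`. -/
theorem sg_two {m : ℕ} (hm : 5 ≤ m) : sg m 2 (fun _ => 1) 1 = 2 := by
  unfold sg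
  have h1 : (Finset.univ.filter fun i : Fin 2 =>
      m * (i : ℕ) + ∑ _j : Fin (2 + 1), (1 * 1) % m < m * 2) = Finset.univ := by
    refine Finset.filter_true_of_mem fun i _ => ?_
    have h2 : (1 * 1) % m = 1 := Nat.mod_eq_of_lt (by omega)
    have h3 : (i : ℕ) ≤ 1 := by have := i.2; omega
    have h4 : m * (i : ℕ) ≤ m * 1 := Nat.mul_le_mul_left m h3
    rw [h2, Finset.sum_const, Finset.card_univ, Fintype.card_fin, smul_eq_mul]
    omega
  rw [h1, Finset.card_univ, Fintype.card_fin]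

end P2_aux

theorem tP2 : S_P2 := by
  intro T m r D hG hK
  rcases Nat.lt_or_ge 2 r with hr | hr
  · have h1 := (tDim tPj tTw (tBas tPj) T m r D hG.hm hG.dim 1).2
    rcases Nat.lt_or_ge (D.p 1) 2 with h2 | h2
    · exact ⟨-1, by omega⟩
    · exact ⟨1, h2⟩
  · have hr2 : r = 2 := le_antisymm hr hG.hr
    subst hr2
    rcases hK with ⟨-, h, -⟩ | ⟨hodd, hm3, -, hdvd, hsg⟩
    · omega
    · have hm5 : 5 ≤ m := by
        obtain ⟨k, hk⟩ := hodd
        have h3 : m ≠ 3 := by
          rintro rfl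
          exact hdvd (by norm_num)
        omega
      refine ⟨1, ?_⟩
      have : Fact (1 < m) := ⟨by omega⟩
      rw [hsg, Units.val_one, ZMod.val_one, P2_aux.sg_two hm5]

end SEC
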