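import Pool.Agent.Lib.SE.C.Spec

/-!
# PROJECT SE-C, module Rho: units for different odd numbers
-/

set_option autoImplicit false

open Module

noncomputable section

namespace SEC

open HC HC.E HC.SE SEB SEQ SE

namespace Rho_aux

theorem cast_one {m ρ : ℕ} (h : ρ ≡ 1 [MOD m]) : (ρ : ZMod m) = 1 := by
  have := (ZMod.natCast_eq_natCast_iff ρ 1 m).2 h
  rwa [Nat.cast_one] at this

theorem modEq_one {m ρ : ℕ} (h : (ρ : ZMod m) = 1) : ρ ≡ 1 [MOD m] := by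
  rw [← ZMod.natCast_eq_natCast_iff, Nat.cast_one]
  exact h

theorem cop_one {m ρ : ℕ} (h : ρ ≡ 1 [MOD m]) : ρ.Coprime m := by
  rw [Nat.coprime_iff_gcd_eq_one, h.gcd_eq, Nat.gcd_one_left]

theorem cop_two {m ρ : ℕ} (ho : Odd m) (h : ρ ≡ 2 [MOD m]) : ρ.Coprime m := by
  rw [Nat.coprime_iff_gcd_eq_one, h.gcd_eq]
  exact Nat.coprime_two_left.2 ho

theorem neg_one {m ρ : ℕ} (h : (ρ : ZMod m) = -1) : m ∣ ρ + 1 := by
  rw [← ZMod.natCast_eq_zero_iff]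
  push_cast
  rw [h]
  ring

/-- the coprime case -/
theorem caseA (m m' : ℕ) (hm' : 5 ≤ m') (ho' : Odd m') (hc : Nat.Coprime m m') :
    ∃ ρ : ℕ, ρ.Coprime (m * m') ∧ (ρ : ZMod m) = 1 ∧ (ρ : ZMod m') ≠ 1 ∧ (ρ : ZMod m') ≠ -1 := by
  obtain ⟨ρ, h1, h2⟩ := Nat.chineseRemainder hc 1 2
  refine ⟨ρ, Nat.Coprime.mul_right (cop_one h1) (cop_two ho' h2), cast_one h1, ?_, ?_⟩
  · intro h
    have h3 : 1 ≡ 2 [MOD m'] := (modEq_one h).symm.trans h2
    have h4 := h3.eq_of_lt_of_lt (by omega) (by omega)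
    omega
  · intro h
    have h3 := neg_one h
    have h4 : ρ + 1 ≡ 2 + 1 [MOD m'] := h2.add_right 1
    have h5 : m' ∣ 2 + 1 := (h4.dvd_iff dvd_rfl).1 h3
    have := Nat.le_of_dvd (by norm_num) h5
    omega

/-- the other case, existence of a unit which is not `1` -/
theorem exB (m m' : ℕ) (hm0 : m' ≠ 0) (ho' : Odd m') (hd : ¬ m' ∣ m) :
    ∃ ρ : ℕ, ρ ≡ 1 [MOD m] ∧ ρ.Coprime m' ∧ ¬ ρ ≡ 1 [MOD m'] := by
  by_cases hp : ∀ p : ℕ, p.Prime → p ∣ m' → p ∣ m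
  · refine ⟨1 + m, ?_, ?_, ?_⟩
    · simp
    · rw [Nat.coprime_comm]
      refine Nat.coprime_of_dvd fun p hpp h1 h2 => ?_
      have h3 := hp p hpp h1
      have h4 : p ∣ 1 := (Nat.dvd_add_left h3).1 h2
      exact hpp.one_lt.ne' (Nat.dvd_one.1 h4)
    · intro h
      have h1 : m' ∣ 1 + m - 1 := (Nat.modEq_iff_dvd' (by omega)).1 h.symm
      rw [Nat.add_sub_cancel_left] at h1
      exact hd h1
  · push Not at hp
    obtain ⟨p, hpp, hpm', hpm⟩ := hp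
    obtain ⟨a, m1, hpm1, hm1⟩ := Nat.exists_eq_pow_mul_and_not_dvd hm0 p hpp.ne_one
    have ha : a ≠ 0 := by
      rintro rfl
      rw [pow_zero, one_mul] at hm1
      rw [hm1] at hpm'
      exact hpm1 hpm'
    have hop : Odd p := ho'.of_dvd_nat hpm'
    have hopa : Odd (p ^ a) := hop.pow
    have hc : Nat.Coprime (m * m1) (p ^ a) := by
      apply Nat.Coprime.pow_right
      rw [Nat.coprime_comm, hpp.coprime_iff_not_dvd, hpp.dvd_mul]
      exact fun h => h.elim hpm hpm1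
    obtain ⟨ρ, h1, h2⟩ := Nat.chineseRemainder hc 1 2
    have h1m : ρ ≡ 1 [MOD m] := h1.of_mul_right m1
    have h1m1 : ρ ≡ 1 [MOD m1] := h1.of_mul_left m
    refine ⟨ρ, h1m, ?_, ?_⟩
    · rw [hm1]
      exact Nat.Coprime.mul_right (cop_two hopa h2) (cop_one h1m1)
    · intro h
      rw [hm1] at h
      have h3 : ρ ≡ 1 [MOD p ^ a] := h.of_mul_right m1
      have h4 : 1 ≡ 2 [MOD p ^ a] := h3.symm.trans h2
      have h5 : p ^ a ∣ 2 - 1 := (Nat.modEq_iff_dvd' (by norm_num)).1 h4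
      have h6 : p ∣ 1 := (dvd_pow_self p ha).trans h5
      exact hpp.one_lt.ne' (Nat.dvd_one.1 h6)

theorem caseB (m m' : ℕ) (hm0 : m' ≠ 0) (ho' : Odd m') (hd : ¬ m' ∣ m) (hg : 3 ≤ m.gcd m') :
    ∃ ρ : ℕ, ρ.Coprime (m * m') ∧ (ρ : ZMod m) = 1 ∧ (ρ : ZMod m') ≠ 1 ∧ (ρ : ZMod m') ≠ -1 := by
  obtain ⟨ρ, h1, h2, h3⟩ := exB m m' hm0 ho' hd
  refine ⟨ρ, Nat.Coprime.mul_right (cop_one h1) h2, cast_one h1, fun h => h3 (modEq_one h), ?_⟩
  intro h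
  have h4 : m.gcd m' ∣ ρ + 1 := (Nat.gcd_dvd_right m m').trans (neg_one h)
  have h5 : ρ ≡ 1 [MOD m.gcd m'] := h1.of_dvd (Nat.gcd_dvd_left m m')
  have h6 : ρ + 1 ≡ 1 + 1 [MOD m.gcd m'] := h5.add_right 1
  have h7 : m.gcd m' ∣ 1 + 1 := (h6.dvd_iff dvd_rfl).1 h4
  have := Nat.le_of_dvd (by norm_num) h7
  omega

end Rho_aux

open Rho_aux in
theorem tRho : S_Rho := by
  intro m m' ho ho' h3 h3' hne
  by_cases hc : Nat.Coprime m m'
  · by_cases h5 : 5 ≤ m'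
    · exact Or.inl (caseA m m' h5 ho' hc)
    · right
      obtain ⟨k, hk⟩ := ho
      obtain ⟨k', hk'⟩ := ho'
      have h5' : 5 ≤ m := by omega
      rw [mul_comm m m']
      exact caseA m' m h5' ⟨k, hk⟩ hc.symm
  · have hgo : Odd (m.gcd m') := ho.of_dvd_nat (Nat.gcd_dvd_left m m')
    have hg1 : m.gcd m' ≠ 1 := hc
    have hg : 3 ≤ m.gcd m' := by
      obtain ⟨k, hk⟩ := hgo
      omega
    by_cases hd : m' ∣ m
    · right
      have hd' : ¬ m ∣ m' := fun h => hne (Nat.dvd_antisymm h hd)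
      rw [mul_comm m m']
      exact caseB m' m (by omega) ho hd' (by rwa [Nat.gcd_comm])
    · exact Or.inl (caseB m m' (by omega) ho' hd hg)

end SEC
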