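import Pool.Agent.Lib.SE.C.Fn
import Pool.Agent.Lib.SE.C.Rho
import Pool.Agent.Lib.SE.C.Cp
import Pool.Agent.Lib.SE.C.P2
import Pool.Agent.Lib.SE.C.Gg
import Pool.Agent.Lib.SE.R.Spl
import Pool.Agent.Lib.SE.R.LiS
import Pool.Agent.Lib.SE.Big.Main3
import Pool.Agent.Lib.SE.Big.Pr3

/-!
# PROJECT SE-C: the final theorem (very general complex branch points, real multiplication factors),
without hypotheses
-/

set_option autoImplicit false

open Module HC HC.E HC.SE SEB SEQ SE SER

noncomputable section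

namespace SEC

/-- **THE FINAL THEOREM.** -/
theorem finC : FinC :=
  finC_of SEB.tMc SEB.tPr3 SEC.tGg SEC.tRho SEC.tCp SEC.tP2 SER.tSpl SER.tLiS

end SEC
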