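import Pool.Agent.Lib.SE.C.Lr
import Pool.Agent.Lib.SE.Big.AdJ

/-!
# PROJECT SE-C, module Lp: the signatures of linked characters (helper77)
-/

set_option autoImplicit false

open Module

noncomputable section

namespace SEC

open HC HC.E HC.SE SEB SEQ

namespace Lp_aux

open Lr_aux

variable {T T' : AV} {m m' : ℕ} {D : Cyc T m} {D' : Cyc T' m'} {h : Set (Pr2 T T')}

/-- Multiplication by `i` on the eigenspace. -/
def jW (D : Cyc T m) (s : (ZMod m)ˣ) : Module.End ℂ (Ws D s) :=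
  rs D s (mulI T) (fun v => (D.Z.map_smul Complex.I v).symm)

theorem jW_apply (D : Cyc T m) (s : (ZMod m)ˣ) (a : Ws D s) :
    (jW D s a : Frm T) = pre (mulI T) (a : Frm T) := rfl

theorem PP2_J (hCl2 : S_Cl2) (hh : HLie2 D D' h) (s : (ZMod m)ˣ) (t : (ZMod m')ˣ) :
    ∀ x ∈ PP2 D D' h s t, (jW D s * x.1 - x.1 * jW D s, jW D' t * x.2 - x.2 * jW D' t) ∈
      PP2 D D' h s t := by
  rintro x ⟨C, hC, h1, h2⟩
  refine ⟨pre2 (mulI T, mulI T') * C - C * pre2 (mulI T, mulI T'),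
    (hCl2 T T' m m' D D' h hh).2 C hC, fun a => ?_, fun a => ?_⟩
  · change pre (mulI T) (C.1 (a : Frm T)) - C.1 (pre (mulI T) (a : Frm T)) = _
    rw [h1]
    have h3 := h1 (jW D s a)
    rw [jW_apply] at h3
    rw [h3]
    rfl
  · change pre (mulI T') (C.2 (a : Frm T')) - C.2 (pre (mulI T') (a : Frm T')) = _
    rw [h2]
    have h3 := h2 (jW D' t a)
    rw [jW_apply] at h3
    rw [h3]
    rfl

theorem wS_dim (D : Cyc T m) (hm : 3 ≤ m) (s : (ZMod m)ˣ) :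
    finrank ℂ (FTwo_aux.wS (jW D s)) = D.p s * D.p (-s) ∧
      ∀ A ∈ FTwo_aux.wS (jW D s), LinearMap.trace ℂ (Ws D s) A = 0 := by
  refine tAdJ (tBas tPj) T m D hm s (FTwo_aux.wS (jW D s)) fun A => ?_
  rw [FTwo_aux.mem_wS]
  constructor
  · intro h5 a b hb
    have hb' : b = jW D s a := Subtype.ext hb
    have h6 := congrArg (fun z : Ws D s => (z : Frm T)) (LinearMap.congr_fun h5 a)
    rw [hb']
    exact h6
  · intro h5
    refine LinearMap.ext fun a => Subtype.ext ?_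
    exact h5 a (jW D s a) rfl

end Lp_aux

open Lr_aux Lp_aux in
theorem tLp : S_Lp := by
  intro hPrj hCl2 T T' m m' r r' D D' hG hG' h hh s t hl
  obtain ⟨p1, p2, -, -, -⟩ := hPrj T T' m m' D D' h hh
  have hGr : FTwo_aux.Gr (PP2 D D' h s t) :=
    ⟨PP2_tr hPrj hG.hm hG'.hm hh s t, PP2_fst hPrj hG'.hm hh s t (hit1 hG p1 s),
      PP2_snd hPrj hG.hm hh s t (hit1 hG' p2 t), PP2_gr hl⟩
  have h7 := hGr.adJ (jW D s) (jW D' t) (PP2_J hCl2 hh s t) (wS_dim D hG.hm s).2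
    (wS_dim D' hG'.hm t).2
  rw [(wS_dim D hG.hm s).1, (wS_dim D' hG'.hm t).1] at h7
  exact h7

end SEC
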