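import Pool.Agent.Lib.SE.C.Spec

/-!
# PROJECT SE-C, module PPa: pairs, assembly
-/

set_option autoImplicit false

open Module

noncomputable section

namespace SEC

open HC HC.E HC.SE SEB SEQ

namespace PPa_aux

/-- for `m ≥ 3` no unit is its own negative -/
theorem neg_ne {m : ℕ} (hm : 3 ≤ m) (s : (ZMod m)ˣ) : -s ≠ s := by
  intro h
  have : NeZero m := ⟨by omega⟩
  have h1 : ((-s : (ZMod m)ˣ) : ZMod m) = (s : ZMod m) := by rw [h]
  rw [Units.val_neg] at h1
  have h2 : (2 : ZMod m) * (s : ZMod m) = 0 := by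
    calc (2 : ZMod m) * (s : ZMod m) = (s : ZMod m) - -(s : ZMod m) := by ring
      _ = 0 := by rw [h1, sub_self]
  have h3 : (2 : ZMod m) = 0 := by
    calc (2 : ZMod m) = (2 * (s : ZMod m)) * ((s⁻¹ : (ZMod m)ˣ) : ZMod m) := by
          rw [mul_assoc, Units.mul_inv, mul_one]
      _ = 0 := by rw [h2, zero_mul]
  have h4 : ((2 : ℕ) : ZMod m) = 0 := by exact_mod_cast h3
  rw [ZMod.natCast_eq_zero_iff] at h4
  have := Nat.le_of_dvd two_pos h4
  omega

end PPa_aux

open PPa_aux in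
/-- **PPa**: assembly. -/
theorem tPPa : S_PPa := by
  intro hPrj hCl2 hGt2 hLI2 hLr hLp hLu hLi hB T T' m m' r r' D D' hG hG' hC hI h hh s t
  by_contra hno
  have hm := hG.hm
  have hm' := hG'.hm
  obtain ⟨p1, p2, -, -, p5⟩ := hPrj T T' m m' D D' h hh
  have a1 : Hits D (Prod.fst '' h) {s} := hG.hit _ p1 {s} fun u hu hu' => by
    rw [Set.mem_singleton_iff] at hu hu'
    exact neg_ne hm u (hu'.trans hu.symm)
  have a2 : Hits D' (Prod.snd '' h) {t} := hG'.hit _ p2 {t} fun u hu hu' => by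
    rw [Set.mem_singleton_iff] at hu hu'
    exact neg_ne hm' u (hu'.trans hu.symm)
  have hL : Lnk D D' h s t := (hGt2 T T' m m' D D' hm hm' h hh s t a1 a2).resolve_left hno
  have b1 := hLr hPrj hCl2 hGt2 hLI2 T T' m m' r r' D D' hG hG' h hh
  have b2 := hLu hPrj T T' m m' r r' D D' hG hG' h hh
  have b3 := hLi T T' m m' r r' D D' hG hG' h b1 b2 s t hL
  have hrr : r = r' := (b1 s t hL).1
  subst hrr
  have d3 := fun u u' hu => hLp hPrj hCl2 T T' m m' r r D D' hG hG' h hh u u' hu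
  rcases hC with hC | hC
  · have hcase : (∃ h : m = m', (∀ u : (ZMod m)ˣ, D.p u = (h ▸ D').p u) ∨
        ∀ u : (ZMod m)ˣ, D.p u = (h ▸ D').p (-u)) ∨
        (3 ≤ r ∧ (m = 3 ∧ m' = 4 ∨ m = 4 ∧ m' = 3)) := by
      rcases hC with c | c | c | c | c
      · exact absurd (Or.inl c) b3
      · exact absurd (Or.inr (Or.inl c)) b3
      · exact absurd (Or.inr (Or.inr c)) b3
      · exact Or.inl c
      · exact Or.inr c
    exact hI (hB T T' m m' r D D' hG hG' hcase h hh s t
      (fun M hM hM' hM0 ρ => (b1 s t hL).2 M hM hM' hM0 ρ) d3)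
  · exact hC s t (d3 s t hL)

end SEC
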