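import Pool.Agent.Lib.SE.R.Spec2
import Pool.Agent.Lib.SE.Q.SpecG
import Pool.Agent.Lib.SE.Big.Asm7

/-!
# PROJECT SE-C: the final theorem with very general COMPLEX branch points (helper45)

`GFg` (SE/Q/SpecG.lean, every signature) replaces `GF1`. The class: `y ^ m = f(x)`, `m` odd, `f` of degree
`r + 1` not divisible by `m`, with distinct complex roots.

Every module: file `SE/C/Xyz.lean`, `theorem tXyz : S_Xyz`, namespace `SEC`, import only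
`Pool.Agent.Lib.SE.C.Spec` (and the proved modules you want to use).
-/

set_option autoImplicit false

open Module

noncomputable section

namespace SEC

open HC HC.E HC.SE SEB SEQ SE

/-! ## Pairs -/

/-- The condition on a pair: as `Cpt`, or the products `p s * p (-s)` of the two are never equal. -/
def Cptg {T T' : AV} {m m' : ℕ} (D : Cyc T m) (D' : Cyc T' m') (r r' : ℕ) : Prop :=
  Cpt D D' r r' ∨ ∀ s t, D.p s * D.p (-s) ≠ D'.p t * D'.p (-t)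

/-- **PAIRS**: isogenous or independent. -/
def PPg : Prop :=
  ∀ (T T' : AV) (m m' r r' : ℕ) (D : Cyc T m) (D' : Cyc T' m'), GFg D r → GFg D' r' →
    Cptg D D' r r' → ¬ Isg T T' → ∀ h, HLie2 D D' h → ∀ s t, Hit2 D D' h s t

/-- As `SEQ.S_Lr`, the same proof. -/
def S_Lr : Prop :=
  S_Prj → S_Cl2 → S_Gt2 → S_LI2 →
  ∀ (T T' : AV) (m m' r r' : ℕ) (D : Cyc T m) (D' : Cyc T' m'), GFg D r → GFg D' r' →
    ∀ h : Set (Pr2 T T'), HLie2 D D' h → ∀ s t, Lnk D D' h s t → r = r' ∧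
    ∀ (M : ℕ) (hM : m ∣ M) (hM' : m' ∣ M), M ≠ 0 → ∀ ρ : (ZMod M)ˣ,
      Lnk D D' h (rho hM ρ s) (rho hM' ρ t)

/-- As `SEQ.S_Lp`, the same proof. -/
def S_Lp : Prop :=
  S_Prj → S_Cl2 →
  ∀ (T T' : AV) (m m' r r' : ℕ) (D : Cyc T m) (D' : Cyc T' m'), GFg D r → GFg D' r' →
    ∀ h : Set (Pr2 T T'), HLie2 D D' h → ∀ s t, Lnk D D' h s t →
    D.p s * D.p (-s) = D'.p t * D'.p (-t)

/-- As `SEQ.S_Lu`, the same proof. -/
def S_Lu : Prop :=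
  S_Prj →
  ∀ (T T' : AV) (m m' r r' : ℕ) (D : Cyc T m) (D' : Cyc T' m'), GFg D r → GFg D' r' →
    ∀ h : Set (Pr2 T T'), HLie2 D D' h →
    (∀ s t t', Lnk D D' h s t → Lnk D D' h s t' → t' = t ∨ t' = -t) ∧
    ∀ s s' t, Lnk D D' h s t → Lnk D D' h s' t → s' = s ∨ s' = -s

/-- As `SEQ.S_Li`, the same proof. -/
def S_Li : Prop :=
  ∀ (T T' : AV) (m m' r r' : ℕ) (D : Cyc T m) (D' : Cyc T' m'), GFg D r → GFg D' r' →
    ∀ h : Set (Pr2 T T'),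
    (∀ s t, Lnk D D' h s t → r = r' ∧
      ∀ (M : ℕ) (hM : m ∣ M) (hM' : m' ∣ M), M ≠ 0 → ∀ ρ : (ZMod M)ˣ,
        Lnk D D' h (rho hM ρ s) (rho hM' ρ t)) →
    ((∀ s t t', Lnk D D' h s t → Lnk D D' h s t' → t' = t ∨ t' = -t) ∧
      ∀ s s' t, Lnk D D' h s t → Lnk D D' h s' t → s' = s ∨ s' = -s) →
    ∀ s t, Lnk D D' h s t →
    ¬ (r ≠ r' ∨
      (∃ ρ : ℕ, ρ.Coprime (m * m') ∧ (ρ : ZMod m) = 1 ∧ (ρ : ZMod m') ≠ 1 ∧ (ρ : ZMod m') ≠ -1) ∨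
      ∃ ρ : ℕ, ρ.Coprime (m * m') ∧ (ρ : ZMod m') = 1 ∧ (ρ : ZMod m) ≠ 1 ∧ (ρ : ZMod m) ≠ -1)

/-- **PPa**: assembly. PROOF. If `Hit2` fails for `s, t` they are linked (`S_Gt2`); `S_Lp` excludes the
last case of `Cptg`, `S_Li` the first three; `S_Bg` with `S_Lr`, `S_Lp`. -/
def S_PPa : Prop :=
  S_Prj → S_Cl2 → S_Gt2 → S_LI2 → S_Lr → S_Lp → S_Lu → S_Li → S_Bg → PPg

/-! ## The explicit class -/

/-- `G` is one of the abelian varieties with known Hodge group: (i) of Picard type, `dim G ≥ 3`, with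
commutant of `Z` equal to `ℚ(Z)`; or the new part of the Jacobian of `y ^ m = f(x)`, `m ≥ 3` odd, `f` of
degree `r + 1 ≥ 3` not divisible by `m`, with distinct roots `s`, where (ii) `r = 2`, or (iii) `m` is a
prime `> r + 1` and the commutant of `Z` is `ℚ(Z)`, or (iv) `s` is not in `M m r`. -/
def Gdc (M : ℕ → (r : ℕ) → Set (Fin (r + 1) → ℂ)) (G : AV) : Prop :=
  (∃ (m : ℕ) (Z : Module.End ℂ G.V), IsPic G m Z ∧ 3 ≤ finrank ℂ G.V ∧ EndQ G Z) ∨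
  ∃ (m r : ℕ) (s : Fin (r + 1) → ℂ) (D : New G m s fun _ => 1), Odd m ∧ 3 ≤ m ∧ 2 ≤ r ∧
    ¬ m ∣ r + 1 ∧ Function.Injective s ∧
    (r = 2 ∨ (m.Prime ∧ r + 1 < m ∧ EndQ G D.Z) ∨ s ∉ M m r)

/-- The kinds of good factors, in terms of the signatures. -/
def Kdc {T : AV} {m : ℕ} (D : Cyc T m) (r : ℕ) : Prop :=
  ((m = 3 ∨ m = 4) ∧ 3 ≤ r ∧ ∃ s, D.p s = 1) ∨
    Odd m ∧ 3 ≤ m ∧ 2 ≤ r ∧ ¬ m ∣ r + 1 ∧
      ∀ u : (ZMod m)ˣ, D.p u = sg m r (fun _ => 1) (u : ZMod m).val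

/-- **Rho**: UNITS for different odd numbers. PROOF. (1) `m`, `m'` coprime: one of them is `≥ 5`, say `m'`;
`ρ ≡ 1` modulo `m`, `ρ ≡ 2` modulo `m'` (`Nat.chineseRemainder`), coprime to both (`m'` is odd), and
`2 ≠ ± 1` in `ZMod m'`. (2) `g = gcd(m, m') ≥ 3` (odd). If `m ∣ m'` then `¬ m' ∣ m`; so, up to symmetry,
`¬ m' ∣ m`. It is enough that `ρ ≡ 1` modulo `m`, `ρ ≢ 1` modulo `m'`, `ρ` coprime to `m'`: if
`ρ ≡ -1` modulo `m'` then `1 ≡ -1` modulo `g`. If every prime divisor of `m'` divides `m`: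
`ρ = 1 + m`. Otherwise let `p ∣ m'`, `¬ p ∣ m`, `m' = p ^ a * m₁`, `¬ p ∣ m₁` (`Nat.exists_eq_pow_mul_and_not_dvd`
or `ordProj`, `ordCompl`): `ρ ≡ 1` modulo `m * m₁`, `ρ ≡ 2` modulo `p ^ a` (`p` is odd). -/
def S_Rho : Prop :=
  ∀ m m' : ℕ, Odd m → Odd m' → 3 ≤ m → 3 ≤ m' → m ≠ m' →
    (∃ ρ : ℕ, ρ.Coprime (m * m') ∧ (ρ : ZMod m) = 1 ∧ (ρ : ZMod m') ≠ 1 ∧ (ρ : ZMod m') ≠ -1) ∨
    ∃ ρ : ℕ, ρ.Coprime (m * m') ∧ (ρ : ZMod m') = 1 ∧ (ρ : ZMod m) ≠ 1 ∧ (ρ : ZMod m) ≠ -1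

/-- **Cp**: kinds are compatible. From `S_Rho`. PROOF. If `r ≠ r'` the first case of `Cpt`. Let `r = r'`.
(a) Both of the first kind. `m ≠ m'`: fifth case of `Cpt`. `m = m'`: the units are `± 1`; `D.p s = 1`,
`D.p (-s) = r - 1` (`S_Dim`), the same for `D'` with `t`: `t = ± s`: fourth case. (b) Both of the
second kind: `m = m'` (`subst`): equal signatures, fourth case; `m ≠ m'`: `S_Rho`. (c) `m` of the
first, `m'` of the second kind (or vice versa: symmetric). `m = 3`: if `m' = 3`: `D.p s = 1`,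
`D.p (-s) = r - 1`; `D'.p 1 + D'.p (-1) = r`; if one of `D'.p 1`, `D'.p (-1)` is `1`, the other is
`r - 1`: fourth case; otherwise `D'.p t * D'.p (-t) ≠ r - 1` (`p q = p + q - 1` iff `(p - 1) (q - 1) = 0`): the
last case. `m' ≠ 3`: `S_Rho`. `m = 4`: `m' = 3`: fifth case. `m' ≥ 5`: `ρ ≡ 1` modulo `4`, `ρ ≡ 2` modulo
`m'`: second case. (Compare SE/Q/Cp.lean.) -/
def S_Cp : Prop :=
  S_Rho → ∀ (T T' : AV) (m m' r r' : ℕ) (D : Cyc T m) (D' : Cyc T' m'), GFg D r → GFg D' r' →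
    Kdc D r → Kdc D' r' → Cptg D D' r r'

/-- **Gg**: the explicit class. PROOF. Compare SE/Q/Gg.lean (`tGg`). From `GF1 D r` one has `GFg D r`
(`D.p s = 1`, `2 ≤ r`). (i) `good_end` as there; `Kdc`: `D.p z = 1`. New Jacobians: `IsCov` by
`isCov_one'` (SE/Big/Cor*.lean or Fam3), `D : Cyc G m` with `D.Z = N.Z` by `S_Avg`,
`D.p u = sg m r (fun _ => 1) u` by `tPnew`, `Aper D` by `S_Pr3` and `tAp`. (ii) `r = 2`: `good_two` (SE/Q/Hit.lean)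
with the `u` of `S_Pr3` (`sg u + sg (m - u) = 2` by `tSg`, both positive). (iii) as in SE/Q/Gg.lean
(`tPr`, `good_end`). (iv) `MMc` (SE/Big/Asm7.lean) with `if_pos`: `Full (mkCyc N hE)` for all `N`, `hE`;
`gfg_of_full` (SE/Big/Gf.lean). -/
def S_Gg : Prop :=
  S_Pr3 → ∀ G : AV, Gdc MMc G → IsCM G ∨ ∃ (m r : ℕ) (D : Cyc G m), GFg D r ∧ Kdc D r ∧
    (IsPic G m D.Z ∨ ∃ (s : Fin (r + 1) → ℂ) (N : New G m s fun _ => 1),
      N.Z = D.Z ∧ IsCov m s fun _ => 1)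

/-- **P2**: a character with `2 ≤ p s`. PROOF. `SEB.S_Dim` (SE/Big/Dim.lean): `p s + p (-s) = r`. If
`3 ≤ r`: `s = 1` or `s = -1`. If `r = 2`: `Kdc` gives `m` odd, `¬ m ∣ 3`, so `m ≥ 5`, and
`p 1 = sg m 2 (fun _ => 1) 1 = #{i < 2 | m i + 3 < 2 m} = 2` (`(1 : (ZMod m)ˣ)` has `val = 1`; unfold
`sg`). -/
def S_P2 : Prop :=
  ∀ (T : AV) (m r : ℕ) (D : Cyc T m), GFg D r → Kdc D r → ∃ s, 2 ≤ D.p s

/-! ## The final theorem -/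

/-- **THE FINAL THEOREM.** -/
def FinC : Prop :=
  ∃ M : ℕ → (r : ℕ) → Set (Fin (r + 1) → ℂ), (∀ m r, IsMeagre (M m r)) ∧
  ∀ (A B T : AV) (N' : ℕ) (G : Fin N' → AV), IsCM A → (∀ n, Gdc M (G n) ∨ IsRM (G n)) →
  IsProdE B A G →
  ∀ (q N : ℕ) (J : Fin q → AV) (j : Fin N → Fin q) (m : Fin q → ℕ)
    (Z : ∀ i, Module.End ℂ (J i).V) (E : ∀ i, (J i).V →ₗ[ℝ] (J i).V →ₗ[ℝ] ℝ)
    (ψ : T.V ≃ₗ[ℂ] B.V × (∀ n, (J (j n)).V)),
    (∀ i, Fct (J i) (m i) (Z i)) → (∀ i, IsPol (J i) (Z i) (E i)) →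
    (∀ v ∈ T.L, ∃ k : ℕ, k ≠ 0 ∧ k • (ψ v).1 ∈ B.L ∧ ∀ n, k • (ψ v).2 n ∈ (J (j n)).L) →
    ∀ (d : ℕ) (c : Hlg T d), IsHodge T d c → SUK Z E ψ c → Alg2 T d c

end SEC
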